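import Mathlib
import Pool.Agent.Helper99.OrdField.Final

/-!
# A field of real algebraic numbers none of whose computable copies has a computable ordering

There is a field `F` of real algebraic numbers that is isomorphic to a computable field, but on no
computable field isomorphic to `F` is there a computable ordering.
-/

set_option autoImplicit false

namespace Pool.Agent.Results.MP_5ae901_lc.NoComputableOrdering

/-- The map `φ` is an isomorphism of the field `F` with the computable field whose universe is the
computable set `U` of natural numbers and whose operations are the computable functions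
`add` and `mul`. -/
structure IsPresentation (F : Type) [Field F] (U : Set ℕ) (add mul : ℕ → ℕ → ℕ) (φ : F → ℕ) :
    Prop where
  computable_universe : ComputablePred (fun a : ℕ => a ∈ U)
  computable_add : Computable₂ add
  computable_mul : Computable₂ mul
  injective : Function.Injective φ
  range : Set.range φ = U
  map_add : ∀ x y : F, φ (x + y) = add (φ x) (φ y)
  map_mul : ∀ x y : F, φ (x * y) = mul (φ x) (φ y)

/-- `lt` is an ordering of the field `F`: a strict total order compatible with addition and with
the multiplication of positive elements. -/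
structure IsOrdering (F : Type) [Field F] (lt : F → F → Prop) : Prop where
  irrefl : ∀ x, ¬ lt x x
  trans : ∀ x y z, lt x y → lt y z → lt x z
  total : ∀ x y, x ≠ y → lt x y ∨ lt y x
  add_lt_add : ∀ x y z, lt x y → lt (x + z) (y + z)
  mul_pos : ∀ x y, lt 0 x → lt 0 y → lt 0 (x * y)

open Pool.Helper99.OrdField

/-- A computable field with infinite computable universe has a copy with universe `ℕ`, by a
computable enumeration of the universe. -/
theorem exists_enum {F : Type} [Field F] [Infinite F] {U : Set ℕ} {add mul : ℕ → ℕ → ℕ}
    {φ : F → ℕ} (h : IsPresentation F U add mul φ) :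
    ∃ (e : ℕ ≃ F) (g : ℕ → ℕ), Computable g ∧ (∀ a, φ (e a) = g a) ∧
      Computable₂ (fun a b : ℕ => e.symm (e a + e b)) ∧
      Computable₂ (fun a b : ℕ => e.symm (e a * e b)) := by
  classical
  obtain ⟨ub, hub, hub2⟩ := ComputablePred.computable_iff.1 h.computable_universe
  have hU : ∀ a, a ∈ U ↔ ub a = true := fun a => by
    have := congrFun hub2 a
    simp only [eq_iff_iff] at this
    exact this
  let cnt : ℕ → ℕ := fun n => Nat.rec (motive := fun _ => ℕ) 0
    (fun m acc => acc + cond (ub m) 1 0) n
  have hcnt : Computable cnt := by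
    have hh : Computable₂ (fun (_ : ℕ) (q : ℕ × ℕ) => (q.2 + cond (ub q.1) 1 0)) := by
      have h1 : Computable₂ (fun (_ : ℕ) (q : ℕ × ℕ) => ub q.1) :=
        hub.comp (Computable.fst.comp Computable.snd)
      have h2 : Computable₂ (fun (_ : ℕ) (q : ℕ × ℕ) => cond (ub q.1) 1 0) :=
        Computable.cond h1 (Computable.const 1) (Computable.const 0)
      exact (Primrec.nat_add.to_comp).comp (Computable.snd.comp Computable.snd) h2
    exact Computable.nat_rec (f := fun n : ℕ => n) (g := fun _ : ℕ => 0)
      (h := fun (_ : ℕ) (q : ℕ × ℕ) => (q.2 + cond (ub q.1) 1 0))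
      Computable.id (Computable.const 0) hh
  have hcnt' : ∀ n, cnt n = Nat.count (fun n : ℕ => ub n = true) n := by
    intro n
    induction n with
    | zero => simp [cnt]
    | succ n ih =>
      rw [Nat.count_succ, ← ih]
      show cnt n + cond (ub n) 1 0 = _
      cases ub n <;> simp
  have hinf : {n : ℕ | ub n = true}.Infinite := by
    have h1 : (Set.range φ).Infinite := Set.infinite_range_of_injective h.injective
    refine h1.mono ?_
    intro a ha
    rw [h.range] at ha
    exact (hU a).1 ha
  obtain ⟨g, hg, hg2⟩ := computable_find (α := ℕ) (fun k n => ub n && (cnt n == k)) (by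
      have h1 : Computable₂ (fun (_ n : ℕ) => ub n) := hub.comp Computable.snd
      have h2 : Computable₂ (fun (k n : ℕ) => (cnt n == k)) :=
        (Primrec.beq.to_comp).comp (hcnt.comp Computable.snd) Computable.fst
      exact (Primrec.and.to_comp).comp h1 h2) (by
      intro k
      refine ⟨Nat.nth (fun n : ℕ => ub n = true) k, ?_⟩
      simp only [Bool.and_eq_true, beq_iff_eq]
      refine ⟨Nat.nth_mem_of_infinite hinf k, ?_⟩
      rw [hcnt']
      exact Nat.count_nth_of_infinite hinf k)
  have hg3 : ∀ k, ub (g k) = true ∧ cnt (g k) = k := by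
    intro k
    have := hg2 k
    simpa only [Bool.and_eq_true, beq_iff_eq] using this
  have hinj : ∀ a b, ub a = true → ub b = true → cnt a = cnt b → a = b := by
    intro a b ha hb hab
    rw [hcnt', hcnt'] at hab
    exact Nat.count_injective (p := fun n => ub n = true) ha hb hab
  have hφU : ∀ x, ub (φ x) = true := fun x => (hU _).1 (h.range ▸ Set.mem_range_self x)
  have hbij : Function.Bijective (fun x : F => cnt (φ x)) := by
    constructor
    · intro x y hxy
      exact h.injective (hinj _ _ (hφU x) (hφU y) hxy)
    · intro k
      have h1 : g k ∈ Set.range φ := by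
        rw [h.range, hU]; exact (hg3 k).1
      obtain ⟨x, hx⟩ := h1
      exact ⟨x, by simp only [hx]; exact (hg3 k).2⟩
  let e : ℕ ≃ F := (Equiv.ofBijective _ hbij).symm
  have he : ∀ x, e.symm x = cnt (φ x) := fun x => rfl
  have heg : ∀ a, φ (e a) = g a := by
    intro a
    apply hinj _ _ (hφU _) (hg3 a).1
    rw [← he, e.symm_apply_apply, (hg3 a).2]
  refine ⟨e, g, hg, heg, ?_, ?_⟩
  · have : (fun a b : ℕ => e.symm (e a + e b)) = fun a b => cnt (add (g a) (g b)) := by
      funext a b
      rw [he, h.map_add, heg, heg]
    rw [this]
    exact hcnt.comp (h.computable_add.comp (hg.comp Computable.fst) (hg.comp Computable.snd))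
  · have : (fun a b : ℕ => e.symm (e a * e b)) = fun a b => cnt (mul (g a) (g b)) := by
      funext a b
      rw [he, h.map_mul, heg, heg]
    rw [this]
    exact hcnt.comp (h.computable_mul.comp (hg.comp Computable.fst) (hg.comp Computable.snd))

theorem algebraic : Algebra.IsAlgebraic ℚ D.F := by
  have h1 : ∀ x ∈ {x : ℝ | ∃ i, x = D.θ i ∨ x = D.y i}, IsIntegral ℚ x := by
    have hθ : ∀ i, IsIntegral ℚ (D.θ i) := by
      intro i
      exact ⟨mq (D.n i), mq_monic (D.hn2 i), by simpa [Polynomial.aeval_def] using D.hθ i⟩
    rintro x ⟨i, rfl | rfl⟩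
    · exact hθ i
    · by_cases ha : D.act i
      · have h2 : IsIntegral ℚ (D.y i ^ 2) := by
          rw [D.hy i ha]
          exact adjoin_le_integralClosure (hθ i) (Polynomial.aeval_mem_adjoin_singleton ℚ (D.θ i))
        exact h2.of_pow (by norm_num)
      · rw [D.hy0 i ha]
        exact isIntegral_zero
  exact IntermediateField.isAlgebraic_adjoin h1

/-- There is a field `F` of real algebraic numbers that is isomorphic to a computable field with
universe `ℕ`, such that no computable field isomorphic to `F` has a computable ordering. -/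
theorem result :
    ∃ F : IntermediateField ℚ ℝ, Algebra.IsAlgebraic ℚ F ∧
      (∃ (add mul : ℕ → ℕ → ℕ) (φ : F → ℕ), IsPresentation F Set.univ add mul φ) ∧
      ∀ (U : Set ℕ) (add mul : ℕ → ℕ → ℕ) (φ : F → ℕ), IsPresentation F U add mul φ →
        ∀ lt : F → F → Prop, IsOrdering F lt →
          ¬ ComputablePred (fun p : ℕ × ℕ => ∃ x y : F, φ x = p.1 ∧ φ y = p.2 ∧ lt x y) := by
  classical
  refine ⟨D.F, algebraic, ?_, ?_⟩
  · obtain ⟨e, h1, h2, -, -⟩ := presentation
    refine ⟨fun a b => e.symm (e a + e b), fun a b => e.symm (e a * e b), e.symm, ?_⟩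
    refine ⟨?_, h1, h2, e.symm.injective, ?_, ?_, ?_⟩
    · refine ⟨fun _ => isTrue trivial, ?_⟩
      exact (Computable.const true).of_eq fun a => by simp
    · exact e.symm.surjective.range_eq
    · intro x y
      simp
    · intro x y
      simp
  · intro U add mul φ h lt hlt hcomp
    obtain ⟨e, g, hg, heg, hA, hM⟩ := exists_enum h
    refine no_order e hA hM {x | lt 0 x} ?_ (hlt.irrefl 0) ?_ ?_ ?_
    · obtain ⟨b, hb, hb2⟩ := ComputablePred.computable_iff.1 hcomp
      refine ComputablePred.computable_iff.2 ⟨fun a => b (φ 0, g a), ?_, ?_⟩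
      · exact hb.comp ((Computable.const (φ 0)).pair hg)
      · funext a
        have h1 := congrFun hb2 (φ 0, g a)
        rw [← h1]
        apply propext
        constructor
        · intro h2
          exact ⟨0, e a, rfl, heg a, h2⟩
        · rintro ⟨x, y, hx, hy, hxy⟩
          have hx0 : x = 0 := h.injective hx
          have hye : y = e a := h.injective (hy.trans (heg a).symm)
          rw [hx0, hye] at hxy
          exact hxy
    · intro x y hx hy
      have h1 := hlt.add_lt_add 0 x y hx
      rw [zero_add] at h1
      exact hlt.trans _ _ _ hy h1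
    · intro x y hx hy
      exact hlt.mul_pos x y hx hy
    · intro x hx
      rcases hlt.total 0 x (Ne.symm hx) with h1 | h1
      · exact Or.inl h1
      · right
        have h2 := hlt.add_lt_add x 0 (-x) h1
        rw [add_neg_cancel, zero_add] at h2
        exact h2

end Pool.Agent.Results.MP_5ae901_lc.NoComputableOrdering
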